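import Pool.Graph.R_seed8.Helper971.BK.Net

/-!
Geodesic nets with unbalanced vertices: definitions.
-/

set_option autoImplicit false

open Finset Classical MeasureTheory
open scoped Manifold ContDiff
open Pool.Agent.GNet

namespace Pool.Agent.KS6_21.G

variable {E : Type*} [NormedAddCommGroup E] [InnerProductSpace ℝ E]
  {M : Type*} [TopologicalSpace M] [ChartedSpace E M] [IsManifold 𝓘(ℝ, E) ∞ M]

/-- A **geodesic net**, possibly with unbalanced vertices, on the Riemannian manifold `(M, g)`: a
finite set `V` of vertices and finitely many edges; the edge `i` is the geodesic segment `γ i` on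
`[0, len i]`, parametrised by arc length, which starts and ends at vertices. Edges do not
self-intersect and distinct edges meet only at common end points. Nothing is required at the
vertices. -/
structure Net (g : RMetric E M) where
  /-- the vertices -/
  V : Finset M
  /-- the number of edges -/
  m : ℕ
  /-- the edges -/
  γ : Fin m → ℝ → M
  /-- the lengths of the edges -/
  len : Fin m → ℝ
  len_pos : ∀ i, 0 < len i
  geodesic : ∀ i, ∀ s ∈ Set.Icc 0 (len i), IsUnitGeodesicAt g (γ i) s
  start_mem : ∀ i, γ i 0 ∈ V
  end_mem : ∀ i, γ i (len i) ∈ V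
  embedded : ∀ i j, ∀ s ∈ Set.Ioo 0 (len i), ∀ t ∈ Set.Icc 0 (len j), γ i s = γ j t →
    i = j ∧ s = t

/-- The degree of a vertex; an edge which starts and ends there counts twice. -/
noncomputable def Net.deg {g : RMetric E M} (N : Net g) (v : M) : ℕ :=
  #(univ.filter fun i => N.γ i 0 = v) + #(univ.filter fun i => N.γ i (N.len i) = v)

/-- The vertex `v` is balanced: the sum of the unit tangent vectors which point into the edges is
zero, expressed in the charts of the atlas. -/
def Net.Balanced {g : RMetric E M} (N : Net g) (v : M) : Prop :=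
  ∀ e ∈ atlas E M, v ∈ e.source →
    ∑ i with N.γ i 0 = v, vel e (N.γ i) 0 - ∑ i with N.γ i (N.len i) = v, vel e (N.γ i) (N.len i) = 0

/-- The length of the part of the net in the set `U`. -/
noncomputable def Net.lengthIn {g : RMetric E M} (N : Net g) (U : Set M) : ℝ :=
  ∑ i, (volume {s : ℝ | s ∈ Set.Icc 0 (N.len i) ∧ N.γ i s ∈ U}).toReal

/-- The length of the net. -/
noncomputable def Net.length {g : RMetric E M} (N : Net g) : ℝ := ∑ i, N.len i

/-- The net is closed: all vertices are balanced and have degree at least three. -/
def Net.IsClosedNet {g : RMetric E M} (N : Net g) : Prop :=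
  ∀ v ∈ N.V, 3 ≤ N.deg v ∧ N.Balanced v

end Pool.Agent.KS6_21.G
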