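import Pool.Graph.R_seed8.Helper971.BK.U8

/-!
The degrees of the points of a local geodesic net are bounded.
-/

set_option autoImplicit false

open Finset Classical MeasureTheory
open Pool.Agent.GNet

namespace Pool.Agent.KS6_21.G

variable {E : Type*} [NormedAddCommGroup E] [InnerProductSpace ℝ E]

/-- direction estimate at the start -/
theorem inner_ge_of_dir {w u : E} {K : ℝ} (hK : 1 ≤ K) (hu : 1 ≤ K * ‖u‖)
    (hw : ‖w‖ = 1)
    (h0 : 0 < (inner ℝ w u : ℝ)) (h : ‖(inner ℝ w u : ℝ)⁻¹ • u - w‖ < 1 / 2) :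
    1 / (2 * K) ≤ (inner ℝ w u : ℝ) := by
  have h1 : ‖(inner ℝ w u : ℝ)⁻¹ • u‖ ≤ 3 / 2 := by
    have := norm_sub_norm_le ((inner ℝ w u : ℝ)⁻¹ • u) w
    rw [hw] at this
    linarith
  rw [norm_smul, norm_inv, Real.norm_eq_abs, abs_of_pos h0, inv_mul_le_iff₀ h0] at h1
  have hK0 : 0 < K := by linarith
  rw [div_le_iff₀ (by positivity)]
  nlinarith

/-- the degree of a point is bounded -/
theorem deg_bound [FiniteDimensional ℝ E] (Γ : Geom E) (o : E) {R : ℝ} (hR : 0 < R) (L : ℝ) :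
    ∃ r₀ : ℝ, 0 < r₀ ∧ ∃ B : ℕ, ∀ N : GeoNet Γ o R, (∀ d, N.len d ≤ r₀) → N.length ≤ L →
      ∀ z ∈ Metric.ball o (R / 2), N.deg z ≤ B := by
  have hK : 1 ≤ Γ.K := Γ.one_le
  have hK0 : 0 < Γ.K := by linarith
  obtain ⟨Mc, hMc, ⟨cut⟩⟩ := exists_cut E o hR
  obtain ⟨W, hW1, hW⟩ := exists_directions E
  obtain ⟨M, hM⟩ : ∃ M : ℕ, 2 * (Mc * Γ.K ^ 2 + Γ.K) * max L 0 * (8 * Γ.K) ≤ M := exists_nat_ge _
  have hcross : ∀ w : E, ‖w‖ = 1 → ∀ (N : GeoNet Γ o R), N.length ≤ max L 0 →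
      ∀ (F : Finset N.D) (t : ℝ), (∀ d ∈ F, (∀ s ∈ Set.Icc 0 (N.len d),
        1 / (8 * Γ.K) ≤ (inner ℝ w (N.u d s) : ℝ) ∧ N.x d s ∈ Metric.ball o (5 * R)) ∧
        (inner ℝ w (N.x d 0) : ℝ) < t ∧ t < (inner ℝ w (N.x d (N.len d)) : ℝ)) → #F ≤ M := by
    intro w hw N hNL F t hF
    have h1 := LNet.flux hK hMc cut N.toLNet w hw (1 / (8 * Γ.K)) (by positivity) t F hF
    have h2 : (#F : ℝ) * (1 / (8 * Γ.K)) ≤ 2 * (Mc * Γ.K ^ 2 + Γ.K) * max L 0 :=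
      h1.trans (mul_le_mul_of_nonneg_left hNL (by positivity))
    have h3 : (#F : ℝ) ≤ 2 * (Mc * Γ.K ^ 2 + Γ.K) * max L 0 * (8 * Γ.K) := by
      rw [mul_one_div, div_le_iff₀ (by positivity)] at h2
      exact h2
    exact_mod_cast h3.trans hM
  obtain ⟨r₀, hr₀⟩ : ∃ r₀, r₀ = min (R / Γ.K) (1 / (4 * Γ.K ^ 2)) := ⟨_, rfl⟩
  refine ⟨r₀, by rw [hr₀]; positivity, #W * M, ?_⟩
  intro N hlen hNL z hz
  have hNL' : N.length ≤ max L 0 := hNL.trans (le_max_left _ _)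
  -- velocity and position on a dart
  have hvel : ∀ d, ∀ s ∈ Set.Icc 0 (N.len d), ‖N.u d s - N.u d 0‖ ≤ 1 / (4 * Γ.K) := by
    intro d s hs
    have h1 := norm_image_sub_le_of_norm_deriv_le_segment' (f := N.u d) (f' := N.a d) (C := Γ.K)
      (a := 0) (b := N.len d) (fun x hx => (N.hu d x hx).hasDerivWithinAt)
      (fun x hx => N.a_le d x ⟨hx.1, hx.2.le⟩) s hs
    have h2 : s ≤ 1 / (4 * Γ.K ^ 2) := by
      refine hs.2.trans ((hlen d).trans ?_)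
      rw [hr₀]; exact min_le_right _ _
    refine h1.trans ?_
    calc Γ.K * (s - 0) ≤ Γ.K * (1 / (4 * Γ.K ^ 2)) := by
          rw [sub_zero]; exact mul_le_mul_of_nonneg_left h2 hK0.le
      _ = 1 / (4 * Γ.K) := by field_simp
  have hpos : ∀ d, N.x d 0 = z → ∀ s ∈ Set.Icc 0 (N.len d), N.x d s ∈ Metric.ball o (5 * R) := by
    intro d hd s hs
    have h1 := norm_image_sub_le_of_norm_deriv_le_segment' (f := N.x d) (f' := N.u d) (C := Γ.K)
      (a := 0) (b := N.len d) (fun x hx => (N.hx d x hx).hasDerivWithinAt)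
      (fun x hx => N.u_le d x ⟨hx.1, hx.2.le⟩) s hs
    have h2 : s ≤ R / Γ.K := by
      refine hs.2.trans ((hlen d).trans ?_)
      rw [hr₀]; exact min_le_left _ _
    rw [hd] at h1
    have h3 : Γ.K * (s - 0) ≤ R := by
      rw [sub_zero]
      calc Γ.K * s ≤ Γ.K * (R / Γ.K) := mul_le_mul_of_nonneg_left h2 hK0.le
        _ = R := by field_simp
    rw [Metric.mem_ball, dist_eq_norm] at hz ⊢
    have h4 : ‖N.x d s - o‖ ≤ ‖N.x d s - z‖ + ‖z - o‖ := by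
      have : N.x d s - o = (N.x d s - z) + (z - o) := by abel
      rw [this]; exact norm_add_le _ _
    linarith
  -- the darts of one direction
  have hdir : ∀ w ∈ W, #(univ.filter fun d => N.x d 0 = z ∧ 0 < (inner ℝ w (N.u d 0) : ℝ) ∧
      ‖(inner ℝ w (N.u d 0) : ℝ)⁻¹ • N.u d 0 - w‖ < 1 / 2) ≤ M := by
    intro w hw
    have hw1 := hW1 w hw
    obtain ⟨F, hF⟩ : ∃ F, F = univ.filter fun d => N.x d 0 = z ∧ 0 < (inner ℝ w (N.u d 0) : ℝ) ∧
      ‖(inner ℝ w (N.u d 0) : ℝ)⁻¹ • N.u d 0 - w‖ < 1 / 2 := ⟨_, rfl⟩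
    rw [← hF]
    have hmemF : ∀ d ∈ F, N.x d 0 = z ∧ ∀ s ∈ Set.Icc 0 (N.len d),
        1 / (8 * Γ.K) ≤ (inner ℝ w (N.u d s) : ℝ) := by
      intro d hd
      rw [hF] at hd
      obtain ⟨h1, h2, h3⟩ := (Finset.mem_filter.1 hd).2
      refine ⟨h1, fun s hs => ?_⟩
      have h4 := inner_ge_of_dir hK (N.u_ge d 0 ⟨le_rfl, (N.len_pos d).le⟩) hw1 h2 h3
      have h5 : |(inner ℝ w (N.u d s - N.u d 0) : ℝ)| ≤ 1 / (4 * Γ.K) := by
        refine (abs_real_inner_le_norm _ _).trans ?_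
        rw [hw1, one_mul]
        exact hvel d s hs
      rw [inner_sub_right] at h5
      have h6 := (abs_le.1 h5).1
      have e1 : 1 / (2 * Γ.K) - 1 / (4 * Γ.K) = 2 * (1 / (8 * Γ.K)) := by field_simp; ring
      have e2 : 0 < 1 / (8 * Γ.K) := by positivity
      linarith
    rcases F.eq_empty_or_nonempty with he | hne
    · rw [he]; simp
    have hup : ∀ d ∈ F, (inner ℝ w z : ℝ) < inner ℝ w (N.x d (N.len d)) := by
      intro d hd
      obtain ⟨h1, h2⟩ := hmemF d hd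
      have hder : ∀ s ∈ Set.Icc 0 (N.len d), HasDerivAt (fun s => (inner ℝ w (N.x d s) : ℝ))
          (inner ℝ w (N.u d s)) s := by
        intro s hs
        exact (innerSL ℝ w).hasFDerivAt.comp_hasDerivAt s (N.hx d s hs)
      obtain ⟨c, hc, hceq⟩ := exists_hasDerivAt_eq_slope (fun s => (inner ℝ w (N.x d s) : ℝ))
        (fun s => (inner ℝ w (N.u d s) : ℝ)) (N.len_pos d)
        (fun s hs => (hder s hs).continuousAt.continuousWithinAt)
        (fun s hs => hder s ⟨hs.1.le, hs.2.le⟩)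
      have h3 := h2 c ⟨hc.1.le, hc.2.le⟩
      rw [hceq, sub_zero, h1] at h3
      have h4 : 0 < 1 / (8 * Γ.K) := by positivity
      have h5 : 0 < (inner ℝ w (N.x d (N.len d)) - inner ℝ w z : ℝ) / N.len d := lt_of_lt_of_le h4 h3
      rw [div_pos_iff_of_pos_right (N.len_pos d)] at h5
      linarith
    obtain ⟨d₀, hd₀, hmin⟩ := F.exists_min_image
      (fun d => (inner ℝ w (N.x d (N.len d)) : ℝ)) hne
    refine hcross w hw1 N hNL' F
      (((inner ℝ w z : ℝ) + inner ℝ w (N.x d₀ (N.len d₀))) / 2) ?_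
    intro d hd
    obtain ⟨h1, h2⟩ := hmemF d hd
    refine ⟨fun s hs => ⟨h2 s hs, hpos d h1 s hs⟩, ?_, ?_⟩
    · rw [h1]
      have := hup d₀ hd₀
      linarith
    · have h3 := hup d₀ hd₀
      have h4 : (inner ℝ w (N.x d₀ (N.len d₀)) : ℝ) ≤ inner ℝ w (N.x d (N.len d)) := hmin d hd
      linarith
  -- all darts
  unfold LNet.deg
  have hsub : (univ.filter fun d => N.x d 0 = z) ⊆ W.biUnion fun w =>
      univ.filter fun d => N.x d 0 = z ∧ 0 < (inner ℝ w (N.u d 0) : ℝ) ∧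
        ‖(inner ℝ w (N.u d 0) : ℝ)⁻¹ • N.u d 0 - w‖ < 1 / 2 := by
    intro d hd
    have hd' := (Finset.mem_filter.1 hd).2
    have hu : N.u d 0 ≠ 0 := by
      intro h0
      have := N.u_ge d 0 ⟨le_rfl, (N.len_pos d).le⟩
      rw [h0, norm_zero, mul_zero] at this
      linarith
    obtain ⟨w, hw, hw1, hw2⟩ := hW _ hu
    rw [Finset.mem_biUnion]
    exact ⟨w, hw, Finset.mem_filter.2 ⟨Finset.mem_univ _, hd', hw1, hw2⟩⟩
  exact (Finset.card_le_card hsub).trans (Finset.card_biUnion_le_card_mul _ _ _ hdir)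

end Pool.Agent.KS6_21.G
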