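import Pool.Agent.KS6_21.G.Loc
import Pool.Agent.KS6_21.G.Deg

/-!
Bounds for geodesic nets with unbalanced vertices.
-/

set_option autoImplicit false
set_option linter.unusedSectionVars false

open Finset Classical MeasureTheory
open scoped Manifold ContDiff Topology
open Pool.Agent.GNet

namespace Pool.Agent.KS6_21.G

variable {E : Type*} [NormedAddCommGroup E] [InnerProductSpace ℝ E] [FiniteDimensional ℝ E]
  {M : Type*} [TopologicalSpace M] [ChartedSpace E M] [IsManifold 𝓘(ℝ, E) ∞ M]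

/-- local geometry around every point, in a given neighbourhood -/
theorem exists_chartGeom_in (g : RMetric E M) (p : M) {U : Set M} (hU : U ∈ 𝓝 p) :
    ∃ R : ℝ, 0 < R ∧ ∃ Γ : Geom E,
      Γ.B = Metric.closedBall (chartAt E p p) (9 * R) ∧
      IsChartGeom g (chartAt E p) Γ ∧
      ∀ v ∈ (chartAt E p).source,
        chartAt E p v ∈ Metric.ball (chartAt E p p) (9 * R) → v ∈ U := by
  obtain ⟨e, he⟩ : ∃ e : OpenPartialHomeomorph M E, e = chartAt E p := ⟨_, rfl⟩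
  rw [← he]
  have hea : e ∈ atlas E M := by rw [he]; exact chart_mem_atlas _ p
  have hps : p ∈ e.source := by rw [he]; exact mem_chart_source _ p
  have hop : e p ∈ e.target := e.map_source hps
  have hnh : e.target ∩ e.symm ⁻¹' U ∈ 𝓝 (e p) := by
    refine Filter.inter_mem (e.open_target.mem_nhds hop) ?_
    apply e.continuousAt_symm hop
    rw [e.left_inv hps]
    exact hU
  obtain ⟨r, hr0, hr⟩ := Metric.mem_nhds_iff.1 hnh
  have hsub : Metric.closedBall (e p) (9 * (r / 18)) ⊆ e.target :=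
    (Metric.closedBall_subset_ball (by linarith)).trans (hr.trans Set.inter_subset_left)
  obtain ⟨Γ, h1, h2, h3, h4⟩ := exists_geom e.open_target (e p)
    (show 0 < 9 * (r / 18) by positivity) hsub (GG g e) (contDiffOn_GG g hea)
    (fun x _ u v => by rw [GG_apply, GG_apply, coeff_symm])
    (fun x hx u hu => GG_pos g hea hx hu)
  refine ⟨r / 18, by positivity, Γ, h1, ?_, ?_⟩
  · exact { mem := hea
            sub := by rw [h1]; exact hsub
            hG := h2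
            hG' := h3
            hA := by
              intro x hx
              rw [h1] at hx
              exact h4 x hx }
  · intro v hv hvb
    have h5 := hr (Metric.ball_subset_ball (by linarith) hvb)
    have h6 : e.symm (e v) ∈ U := h5.2
    rwa [e.left_inv hv] at h6

/-- **Local estimate.** -/
theorem local_bound [T2Space M] (g : RMetric E M) (p : M) {U : Set M} (hU : U ∈ 𝓝 p) :
    ∃ W ∈ 𝓝 p, W ⊆ U ∧ ∀ L : ℝ, ∃ B : ℕ, ∀ N : Net g,
      (∀ v ∈ N.V, v ∈ U → N.Balanced v) → N.lengthIn U ≤ L →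
        ∑ v ∈ N.V with v ∈ W ∧ 3 ≤ N.deg v, N.deg v ≤ B := by
  obtain ⟨R, hR, Γ, hB, hΓ, hin⟩ := exists_chartGeom_in g p hU
  obtain ⟨W, hW⟩ : ∃ W : Set M, W = (chartAt E p).source ∩
    (chartAt E p) ⁻¹' (Metric.ball (chartAt E p p) (R / 2)) := ⟨_, rfl⟩
  have hWn : W ∈ 𝓝 p := by
    rw [hW]
    apply IsOpen.mem_nhds
    · exact (chartAt E p).isOpen_inter_preimage Metric.isOpen_ball
    · exact ⟨mem_chart_source _ p, Metric.mem_ball_self (half_pos hR)⟩
  refine ⟨W, hWn, ?_, fun L => ?_⟩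
  · rw [hW]
    rintro v ⟨h1, h2⟩
    exact hin v h1 (Metric.ball_subset_ball (by linarith) h2)
  obtain ⟨r₁, hr₁, B₁, hB₁⟩ := GeoNet.main Γ (chartAt E p p) hR (2 * L)
  obtain ⟨r₂, hr₂, B₂, hB₂⟩ := deg_bound Γ (chartAt E p p) hR (2 * L)
  refine ⟨B₁ * B₂, fun N hbal hL => ?_⟩
  obtain ⟨𝒩, h1, h2, h3⟩ := Net.exists_local hΓ hR hB N hin hbal (lt_min hr₁ hr₂)
  have hL2 : 𝒩.length ≤ 2 * L := by linarith
  have hdeg : ∀ v ∈ N.V.filter (fun v => v ∈ W ∧ 3 ≤ N.deg v), N.deg v ≤ B₂ := by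
    intro v hv
    obtain ⟨-, hv1, -⟩ := Finset.mem_filter.1 hv
    rw [hW] at hv1
    refine (h3 v hv1.1 (Metric.ball_subset_ball (by linarith) hv1.2)).trans ?_
    exact hB₂ 𝒩 (fun d => (h1 d).trans (min_le_right _ _)) hL2 _ hv1.2
  have hcard : #(N.V.filter (fun v => v ∈ W ∧ 3 ≤ N.deg v)) ≤ B₁ := by
    refine le_trans ?_ (hB₁ 𝒩 (fun d => (h1 d).trans (min_le_left _ _)) hL2)
    refine Finset.card_le_card_of_injOn (fun v => chartAt E p v) ?_ ?_
    · intro v hv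
      obtain ⟨-, hv1, hv2⟩ := Finset.mem_filter.1 (Finset.mem_coe.1 hv)
      rw [hW] at hv1
      have h4 := hv2.trans (h3 v hv1.1 (Metric.ball_subset_ball (by linarith) hv1.2))
      refine Finset.mem_coe.2 (Finset.mem_filter.2 ⟨?_, hv1.2, h4⟩)
      have h5 : (univ.filter fun d => 𝒩.x d 0 = chartAt E p v).Nonempty := by
        rw [← Finset.card_pos]
        exact lt_of_lt_of_le (by norm_num) h4
      obtain ⟨d, hd⟩ := h5
      exact Finset.mem_image.2 ⟨d, Finset.mem_univ _, (Finset.mem_filter.1 hd).2⟩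
    · intro v hv w hw hvw
      obtain ⟨-, hv1, -⟩ := Finset.mem_filter.1 (Finset.mem_coe.1 hv)
      obtain ⟨-, hw1, -⟩ := Finset.mem_filter.1 (Finset.mem_coe.1 hw)
      rw [hW] at hv1 hw1
      exact (chartAt E p).injOn hv1.1 hw1.1 hvw
  calc ∑ v ∈ N.V with v ∈ W ∧ 3 ≤ N.deg v, N.deg v
      ≤ #(N.V.filter (fun v => v ∈ W ∧ 3 ≤ N.deg v)) • B₂ := Finset.sum_le_card_nsmul _ _ _ hdeg
    _ = #(N.V.filter (fun v => v ∈ W ∧ 3 ≤ N.deg v)) * B₂ := smul_eq_mul _ _
    _ ≤ B₁ * B₂ := Nat.mul_le_mul_right _ hcard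

/-- length is monotone -/
theorem Net.lengthIn_mono {g : RMetric E M} (N : Net g) {U U' : Set M} (h : U ⊆ U') :
    N.lengthIn U ≤ N.lengthIn U' := by
  refine Finset.sum_le_sum fun i _ => ENNReal.toReal_mono ?_ (measure_mono fun s hs => ⟨hs.1, h hs.2⟩)
  refine ne_top_of_le_ne_top ?_ (measure_mono (fun s hs => hs.1) :
      volume {s : ℝ | s ∈ Set.Icc 0 (N.len i) ∧ N.γ i s ∈ U'} ≤ volume (Set.Icc 0 (N.len i)))
  simp

theorem Net.lengthIn_le {g : RMetric E M} (N : Net g) (U : Set M) :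
    N.lengthIn U ≤ N.length := by
  refine Finset.sum_le_sum fun i _ => ?_
  have h1 := ENNReal.toReal_mono (by simp) (measure_mono (fun s hs => hs.1) :
      volume {s : ℝ | s ∈ Set.Icc 0 (N.len i) ∧ N.γ i s ∈ U} ≤ volume (Set.Icc 0 (N.len i)))
  refine h1.trans (le_of_eq ?_)
  rw [Real.volume_Icc, sub_zero, ENNReal.toReal_ofReal (N.len_pos i).le]

theorem sum_biUnion_le' {α β : Type*} [DecidableEq β] (P : Finset α) (t : α → Finset β)
    (f : β → ℕ) : ∑ b ∈ P.biUnion t, f b ≤ ∑ a ∈ P, ∑ b ∈ t a, f b := by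
  classical
  induction P using Finset.induction_on with
  | empty => simp
  | insert a P ha ih =>
    rw [Finset.biUnion_insert, Finset.sum_insert ha]
    have h1 := Finset.sum_union_inter (s₁ := t a) (s₂ := P.biUnion t) (f := f)
    omega

/-- **Compact sets.** Here `A p` is a neighbourhood of `p`, and the vertices which are counted are
those which are not in a neighbourhood `A p` of a point of `K` with an unbalanced vertex in it. -/
theorem compact_bound [T2Space M] (g : RMetric E M) {K : Set M} (hK : IsCompact K)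
    (A : M → Set M) (hA : ∀ p ∈ K, A p ∈ 𝓝 p) {U : Set M} (hAU : ∀ p ∈ K, A p ⊆ U) (L : ℝ) :
    ∃ B : ℕ, ∀ N : Net g, N.lengthIn U ≤ L →
      ∑ v ∈ N.V with v ∈ K ∧ 3 ≤ N.deg v ∧
        (∀ p ∈ K, v ∈ A p → ∀ w ∈ N.V, w ∈ A p → N.Balanced w), N.deg v ≤ B := by
  choose! W hW1 hW2 hW3 using fun (p : M) (hp : p ∈ K) => local_bound g p (hA p hp)
  choose! B hB using hW3
  obtain ⟨P, hPK, hP⟩ := hK.elim_nhds_subcover W hW1
  refine ⟨∑ p ∈ P, B p L, fun N hL => ?_⟩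
  have hsub : (N.V.filter fun v => v ∈ K ∧ 3 ≤ N.deg v ∧
      (∀ p ∈ K, v ∈ A p → ∀ w ∈ N.V, w ∈ A p → N.Balanced w)) ⊆
      (P.filter fun p => ∀ w ∈ N.V, w ∈ A p → N.Balanced w).biUnion fun p =>
        N.V.filter fun v => v ∈ W p ∧ 3 ≤ N.deg v := by
    intro v hv
    obtain ⟨h1, h2, h3, h4⟩ := Finset.mem_filter.1 hv
    have h5 := hP h2
    rw [Set.mem_iUnion₂] at h5
    obtain ⟨p, hp, hvp⟩ := h5
    exact Finset.mem_biUnion.2 ⟨p, Finset.mem_filter.2 ⟨hp, h4 p (hPK p hp) (hW2 p (hPK p hp) hvp)⟩,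
      Finset.mem_filter.2 ⟨h1, hvp, h3⟩⟩
  calc _ ≤ ∑ v ∈ (P.filter fun p => ∀ w ∈ N.V, w ∈ A p → N.Balanced w).biUnion fun p =>
        N.V.filter fun v => v ∈ W p ∧ 3 ≤ N.deg v, N.deg v :=
        Finset.sum_le_sum_of_subset hsub
    _ ≤ ∑ p ∈ P.filter fun p => ∀ w ∈ N.V, w ∈ A p → N.Balanced w,
          ∑ v ∈ N.V with v ∈ W p ∧ 3 ≤ N.deg v, N.deg v := sum_biUnion_le' _ _ _
    _ ≤ ∑ p ∈ P.filter fun p => ∀ w ∈ N.V, w ∈ A p → N.Balanced w, B p L := by
        refine Finset.sum_le_sum fun p hp => ?_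
        obtain ⟨hp1, hp2⟩ := Finset.mem_filter.1 hp
        exact hB p (hPK p hp1) L N hp2 ((N.lengthIn_mono (hAU p (hPK p hp1))).trans hL)
    _ ≤ ∑ p ∈ P, B p L := Finset.sum_le_sum_of_subset (Finset.filter_subset _ _)

/-- A compact set in an open set in which the nets are balanced. -/
theorem compact_open [T2Space M] (g : RMetric E M) {K U : Set M} (hK : IsCompact K)
    (hU : IsOpen U) (hKU : K ⊆ U) (L : ℝ) :
    ∃ B : ℕ, ∀ N : Net g, (∀ v ∈ N.V, v ∈ U → N.Balanced v) → N.lengthIn U ≤ L →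
      ∑ v ∈ N.V with v ∈ K ∧ 3 ≤ N.deg v, N.deg v ≤ B := by
  obtain ⟨B, hB⟩ := compact_bound g hK (fun _ => U) (fun p hp => hU.mem_nhds (hKU hp))
    (fun _ _ => subset_rfl) L
  refine ⟨B, fun N hbal hL => le_trans (Finset.sum_le_sum_of_subset ?_) (hB N hL)⟩
  intro v hv
  obtain ⟨h1, h2, h3⟩ := Finset.mem_filter.1 hv
  exact Finset.mem_filter.2 ⟨h1, h2, h3, fun p _ _ => hbal⟩

/-- Vertices far from the unbalanced vertices. -/
theorem far_bound [T2Space M] (g : RMetric E M) {K : Set M} (hK : IsCompact K)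
    (d : M → M → ℝ) (hd : Continuous fun q : M × M => d q.1 q.2) (h0 : ∀ x, d x x = 0) {δ : ℝ}
    (hδ : 0 < δ) (L : ℝ) :
    ∃ B : ℕ, ∀ N : Net g, N.length ≤ L →
      ∑ v ∈ N.V with v ∈ K ∧ 3 ≤ N.deg v ∧ (∀ w ∈ N.V, ¬ N.Balanced w → δ ≤ d v w),
        N.deg v ≤ B := by
  have key : ∀ p : M, ∃ A ∈ 𝓝 p, ∀ x ∈ A, ∀ y ∈ A, d x y < δ := by
    intro p
    have h1 : {q : M × M | d q.1 q.2 < δ} ∈ 𝓝 (p, p) :=
      (isOpen_lt hd continuous_const).mem_nhds (by
        show d p p < δ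
        rw [h0]; exact hδ)
    rw [mem_nhds_prod_iff] at h1
    obtain ⟨u, hu, v, hv, huv⟩ := h1
    exact ⟨u ∩ v, Filter.inter_mem hu hv, fun x hx y hy => huv (Set.mk_mem_prod hx.1 hy.2)⟩
  choose A hA1 hA2 using key
  obtain ⟨B, hB⟩ := compact_bound g hK A (fun p _ => hA1 p) (U := Set.univ)
    (fun _ _ => Set.subset_univ _) L
  refine ⟨B, fun N hL => le_trans (Finset.sum_le_sum_of_subset ?_)
    (hB N ((N.lengthIn_le _).trans hL))⟩
  intro v hv
  obtain ⟨h1, h2, h3, h4⟩ := Finset.mem_filter.1 hv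
  refine Finset.mem_filter.2 ⟨h1, h2, h3, fun p hp hvp w hw hwp => ?_⟩
  by_contra hcon
  exact absurd (hA2 p v hvp w hwp) (not_lt.2 (h4 w hw hcon))

theorem Net.sum_deg {g : RMetric E M} (N : Net g) : ∑ v ∈ N.V, N.deg v = 2 * N.m := by
  unfold Net.deg
  rw [Finset.sum_add_distrib,
    ← Finset.card_eq_sum_card_fiberwise (fun i _ => N.start_mem i),
    ← Finset.card_eq_sum_card_fiberwise (fun i _ => N.end_mem i), Finset.card_univ,
    Fintype.card_fin]
  ring

/-- Closed nets on closed manifolds. -/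
theorem closed_bound [T2Space M] [CompactSpace M] (g : RMetric E M) :
    ∃ f : ℝ → ℕ, ∀ N : Net g, N.IsClosedNet → #N.V ≤ f N.length ∧ N.m ≤ f N.length := by
  obtain ⟨K, hK⟩ : ∃ K : Set M, K = Set.univ := ⟨_, rfl⟩
  have hKc : IsCompact K := by rw [hK]; exact isCompact_univ
  choose f hf using fun L : ℝ => compact_open g hKc (U := Set.univ) isOpen_univ
    (Set.subset_univ K) L
  refine ⟨f, fun N hN => ?_⟩
  have h1 : ∑ v ∈ N.V, N.deg v ≤ f N.length := by
    refine le_trans (Finset.sum_le_sum_of_subset ?_)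
      (hf N.length N (fun v hv _ => (hN v hv).2) (N.lengthIn_le _))
    intro v hv
    exact Finset.mem_filter.2 ⟨hv, hK ▸ Set.mem_univ _, (hN v hv).1⟩
  have h3 := N.sum_deg
  have h4 : #N.V * 3 ≤ ∑ v ∈ N.V, N.deg v := by
    rw [← smul_eq_mul]
    exact Finset.card_nsmul_le_sum _ _ _ fun v hv => (hN v hv).1
  constructor <;> omega

end Pool.Agent.KS6_21.G
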